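import Pool.Agent.Helper42.LS.Defs

open Filter Topology

namespace Pool.Agent.Helper42.LS

lemma ch_main (f : ℕ → ℝ) (C1 C2 : ℝ) (h1 : ∀ k : ℕ, 1 ≤ k → |f (2 * k) - 4 * f k| ≤ C1)
    (h2 : ∀ k l : ℕ, 1 ≤ l → l < k → f (k + l) + f (k - l) ≤ 2 * f k + 2 * f l + C2) :
    ∃ e : ℝ, (∀ k : ℕ, 1 ≤ k → Tendsto (fun n : ℕ => f (k * 2 ^ n) / 4 ^ n) atTop
      (𝓝 ((k : ℝ) ^ 2 * e))) ∧ |e - f 1| ≤ C1 / 3 := by
  have hstep : ∀ k : ℕ, 1 ≤ k → ∀ n : ℕ, dist (f (k * 2 ^ n) / 4 ^ n)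
      (f (k * 2 ^ (n + 1)) / 4 ^ (n + 1)) ≤ C1 / 4 * (1 / 4) ^ n := by
    intro k hk n
    have hk2 : 1 ≤ k * 2 ^ n := Nat.mul_pos hk (by positivity)
    have h := h1 (k * 2 ^ n) hk2
    have e1 : 2 * (k * 2 ^ n) = k * 2 ^ (n + 1) := by ring
    rw [e1] at h
    have e2 : f (k * 2 ^ n) / 4 ^ n - f (k * 2 ^ (n + 1)) / 4 ^ (n + 1) =
        -(f (k * 2 ^ (n + 1)) - 4 * f (k * 2 ^ n)) / 4 ^ (n + 1) := by
      field_simp
      ring
    rw [Real.dist_eq, e2, abs_div, abs_neg, abs_of_pos (by positivity : (0 : ℝ) < 4 ^ (n + 1)),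
      div_le_iff₀ (by positivity)]
    refine h.trans (le_of_eq ?_)
    rw [one_div, inv_pow, pow_succ]
    field_simp
  have hlim : ∀ k : ℕ, ∃ a : ℝ, 1 ≤ k → Tendsto (fun n : ℕ => f (k * 2 ^ n) / 4 ^ n) atTop
      (𝓝 a) := by
    intro k
    by_cases hk : 1 ≤ k
    · obtain ⟨a, ha⟩ := cauchySeq_tendsto_of_complete
        (cauchySeq_of_le_geometric (1 / 4) (C1 / 4) (by norm_num) (hstep k hk))
      exact ⟨a, fun _ => ha⟩
    · exact ⟨0, fun h => absurd h hk⟩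
  choose e he using hlim
  have hpl : ∀ k l : ℕ, 1 ≤ l → l < k → e (k + l) + e (k - l) ≤ 2 * e k + 2 * e l := by
    intro k l hl hlk
    have t1 := (he (k + l) (by omega)).add (he (k - l) (by omega))
    have t2 := (((he k (by omega)).const_mul 2).add ((he l hl).const_mul 2)).add
      ((tendsto_pow_atTop_nhds_zero_of_lt_one (by norm_num : (0 : ℝ) ≤ 1 / 4)
        (by norm_num : (1 / 4 : ℝ) < 1)).const_mul C2)
    have := le_of_tendsto_of_tendsto t1 t2 (Eventually.of_forall (fun n => ?_))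
    · linarith
    · have h := h2 (k * 2 ^ n) (l * 2 ^ n) (Nat.mul_pos hl (by positivity))
        (Nat.mul_lt_mul_of_pos_right hlk (by positivity))
      rw [← Nat.add_mul, ← Nat.sub_mul] at h
      have h4 : (0 : ℝ) < 4 ^ n := by positivity
      calc f ((k + l) * 2 ^ n) / 4 ^ n + f ((k - l) * 2 ^ n) / 4 ^ n
          = (f ((k + l) * 2 ^ n) + f ((k - l) * 2 ^ n)) / 4 ^ n := by ring
        _ ≤ (2 * f (k * 2 ^ n) + 2 * f (l * 2 ^ n) + C2) / 4 ^ n :=
            div_le_div_of_nonneg_right h h4.le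
        _ = 2 * (f (k * 2 ^ n) / 4 ^ n) + 2 * (f (l * 2 ^ n) / 4 ^ n) + C2 * (1 / 4) ^ n := by
            rw [one_div, inv_pow]; ring
  have hdb : ∀ k : ℕ, 1 ≤ k → e (2 * k) = 4 * e k := by
    intro k hk
    have t1 := he (2 * k) (by omega)
    have t2 := ((tendsto_add_atTop_iff_nat 1).2 (he k hk)).const_mul 4
    refine tendsto_nhds_unique t1 (t2.congr (fun n => ?_))
    have : 2 * k * 2 ^ n = k * 2 ^ (n + 1) := by ring
    rw [this, pow_succ 4 n]
    field_simp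
  have heq : ∀ k l : ℕ, 1 ≤ l → l < k → e (k + l) + e (k - l) = 2 * e k + 2 * e l := by
    intro k l hl hlk
    apply le_antisymm (hpl k l hl hlk)
    have h := hpl (k + l) (k - l) (by omega) (by omega)
    have e1 : k + l + (k - l) = 2 * k := by omega
    have e2 : k + l - (k - l) = 2 * l := by omega
    rw [e1, e2, hdb k (by omega), hdb l hl] at h
    linarith
  have hsq : ∀ k : ℕ, 1 ≤ k → e k = (k : ℝ) ^ 2 * e 1 := by
    intro k
    induction k using Nat.strong_induction_on with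
    | _ k ih =>
      intro hk
      rcases Nat.lt_or_ge k 3 with h3 | h3
      · have : k = 1 ∨ k = 2 := by omega
        rcases this with rfl | rfl
        · simp
        · have := hdb 1 le_rfl
          norm_num at this ⊢
          exact this
      · have h := heq (k - 1) 1 le_rfl (by omega)
        have e1 : k - 1 + 1 = k := by omega
        rw [e1, ih (k - 1) (by omega) (by omega), ih (k - 1 - 1) (by omega) (by omega)] at h
        have e2 : ((k - 1 : ℕ) : ℝ) = (k : ℝ) - 1 := by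
          rw [Nat.cast_sub (by omega)]; simp
        have e3 : ((k - 1 - 1 : ℕ) : ℝ) = (k : ℝ) - 2 := by
          rw [Nat.sub_sub, Nat.cast_sub (by omega)]; norm_num
        rw [e2, e3] at h
        nlinarith
  refine ⟨e 1, fun k hk => ?_, ?_⟩
  · rw [← hsq k hk]
    exact he k hk
  · have h := dist_le_of_le_geometric_of_tendsto₀ (1 / 4) (C1 / 4) (by norm_num) (hstep 1 le_rfl)
      (he 1 le_rfl)
    rw [dist_comm, Real.dist_eq] at h
    simp only [pow_zero, mul_one, div_one] at h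
    refine h.trans (le_of_eq ?_)
    ring

lemma ch_dbl {A B : ℤ} {x y : ℕ → ℚ} (hS : GSeq (0 : ℚ) (A : ℚ) (B : ℚ) x y) (k : ℕ)
    (hk : 1 ≤ k) : cu (A : ℚ) (B : ℚ) (x k) ≠ 0 ∧
      x (2 * k) = th (A : ℚ) (B : ℚ) (x k) / (4 * cu (A : ℚ) (B : ℚ) (x k)) := by
  have hy := hS.yne k hk
  have hc : y k ^ 2 = cu (A : ℚ) (B : ℚ) (x k) := by
    rw [hS.curve k hk, cu]; ring
  have hcu : cu (A : ℚ) (B : ℚ) (x k) ≠ 0 := by
    rw [← hc]; exact pow_ne_zero 2 hy
  refine ⟨hcu, ?_⟩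
  rw [hS.dblx k hk, eq_div_iff (by simpa using hcu), ← hc]
  field_simp
  rw [hc]
  unfold th cu
  ring

theorem st_CH (hGB : ST_GB) (hPL : ST_PL) : ST_CH := by
  intro A B hD
  obtain ⟨C1, hC1⟩ := hGB A B hD
  obtain ⟨C2, hC2⟩ := hPL A B hD
  refine ⟨C1 / 3, ?_⟩
  intro x y hS
  refine ch_main (fun k => hQ (x k)) C1 C2 ?_ ?_
  · intro k hk
    obtain ⟨h1, h2⟩ := ch_dbl hS k hk
    rw [h2]
    exact hC1 (x k) h1
  · exact hC2 x y hS

end Pool.Agent.Helper42.LS
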