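import Pool.Agent.Helper42.LS.Defs

open Filter Topology

namespace Pool.Agent.Helper42.LS

lemma nc_finite (K : ℝ) : {q : ℚ | hQ q ≤ K}.Finite := by
  obtain ⟨N, hN⟩ := exists_nat_ge (Real.exp K)
  have hfin : ((fun z : ℤ × ℕ => (z.1 : ℚ) / (z.2 : ℚ)) ''
      (Set.Icc (-(N : ℤ)) N ×ˢ Set.Icc 0 N)).Finite :=
    ((Set.finite_Icc _ _).prod (Set.finite_Icc _ _)).image _
  refine hfin.subset ?_
  intro q hq
  have hq' : hQ q ≤ K := hq
  unfold hQ at hq'
  have hpos : (0 : ℝ) < ((max q.num.natAbs q.den : ℕ) : ℝ) := by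
    exact_mod_cast lt_of_lt_of_le q.den_pos (le_max_right _ _)
  have h1 : ((max q.num.natAbs q.den : ℕ) : ℝ) ≤ N := by
    rw [Real.log_le_iff_le_exp hpos] at hq'
    exact hq'.trans hN
  have h2 : max q.num.natAbs q.den ≤ N := by exact_mod_cast h1
  refine ⟨(q.num, q.den), ?_, ?_⟩
  · simp only [Set.mem_prod, Set.mem_Icc]
    have h3 : q.num.natAbs ≤ N := (le_max_left _ _).trans h2
    have h4 : q.den ≤ N := (le_max_right _ _).trans h2
    omega
  · exact Rat.num_div_den q

lemma nc_scale {F : Type} [Field F] {a b c : F} {x y : ℕ → F} (h : GSeq a b c x y) (m : ℕ)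
    (hm : 1 ≤ m) : GSeq a b c (fun j => x (m * j)) (fun j => y (m * j)) := by
  have hp : ∀ k : ℕ, 1 ≤ k → 1 ≤ m * k := fun k hk => Nat.mul_pos hm hk
  have hl : ∀ k l : ℕ, l < k → m * l < m * k := fun k l hlk => Nat.mul_lt_mul_of_pos_left hlk hm
  have e2 : ∀ k : ℕ, m * (2 * k) = 2 * (m * k) := fun k => by ring
  refine ⟨?_, ?_, ?_, ?_, ?_, ?_, ?_, ?_, ?_⟩
  · intro k hk
    exact h.curve (m * k) (hp k hk)
  · intro k hk
    exact h.yne (m * k) (hp k hk)
  · intro k l hl1 hlk
    exact h.xne (m * k) (m * l) (hp l hl1) (hl k l hlk)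
  · intro k hk
    have := h.dblx (m * k) (hp k hk)
    simp only [e2]
    exact this
  · intro k hk
    have := h.dbly (m * k) (hp k hk)
    simp only [e2]
    exact this
  · intro k l hl1 hlk
    have := h.addx (m * k) (m * l) (hp l hl1) (hl k l hlk)
    simp only [Nat.mul_add]
    exact this
  · intro k l hl1 hlk
    have := h.addy (m * k) (m * l) (hp l hl1) (hl k l hlk)
    simp only [Nat.mul_add]
    exact this
  · intro k l hl1 hlk
    have := h.subx (m * k) (m * l) (hp l hl1) (hl k l hlk)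
    simp only [Nat.mul_sub]
    exact this
  · intro k l hl1 hlk
    have := h.suby (m * k) (m * l) (hp l hl1) (hl k l hlk)
    simp only [Nat.mul_sub]
    exact this

theorem st_NC (hCH : ST_CH) : ST_NC := by
  intro A B hD
  obtain ⟨C, hC⟩ := hCH A B hD
  have hfin := nc_finite (C + 1)
  set m : ℕ := hfin.toFinset.card + 1 with hm
  have hm0 : (0 : ℝ) < m := by positivity
  refine ⟨1 / (m : ℝ) ^ 2, by positivity, ?_⟩
  intro x y e hS he
  by_contra hcon
  push Not at hcon
  have hbound : ∀ k : ℕ, 1 ≤ k → hQ (x k) ≤ (k : ℝ) ^ 2 * e + C := by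
    intro k hk
    obtain ⟨e', he', hC'⟩ := hC _ _ (nc_scale hS k hk)
    have t1 := he' 1 le_rfl
    have t2 := he k hk
    simp only [one_mul] at t1
    have h3 := tendsto_nhds_unique t1 t2
    simp only [Nat.cast_one, one_pow, one_mul] at h3
    rw [h3, mul_one] at hC'
    linarith [(abs_le.1 hC').1]
  have hmem : ∀ k ∈ Finset.Icc 1 m, x k ∈ hfin.toFinset := by
    intro k hk
    obtain ⟨hk1, hk2⟩ := Finset.mem_Icc.1 hk
    rw [Set.Finite.mem_toFinset]
    have h1 := hbound k hk1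
    have h2 : (k : ℝ) ^ 2 * e ≤ 1 := by
      rcases le_or_gt e 0 with h0 | h0
      · have : (k : ℝ) ^ 2 * e ≤ 0 := mul_nonpos_of_nonneg_of_nonpos (by positivity) h0
        linarith
      · have hkm : (k : ℝ) ^ 2 ≤ (m : ℝ) ^ 2 := by
          have : (k : ℝ) ≤ m := by exact_mod_cast hk2
          exact pow_le_pow_left₀ (by positivity) this 2
        have h3 : (k : ℝ) ^ 2 * e ≤ (m : ℝ) ^ 2 * e := mul_le_mul_of_nonneg_right hkm h0.le
        have h4 : (m : ℝ) ^ 2 * e ≤ 1 := by
          rw [lt_div_iff₀ (by positivity)] at hcon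
          linarith
        linarith
    show hQ (x k) ≤ C + 1
    linarith
  have hinj : Set.InjOn x (Finset.Icc 1 m : Set ℕ) := by
    intro k hk l hl hkl
    simp only [Finset.coe_Icc, Set.mem_Icc] at hk hl
    rcases lt_trichotomy k l with h | h | h
    · exact absurd hkl.symm (hS.xne l k hk.1 h)
    · exact h
    · exact absurd hkl (hS.xne k l hl.1 h)
  have hcard := Finset.card_le_card_of_injOn x hmem hinj
  rw [Nat.card_Icc] at hcard
  omega

end Pool.Agent.Helper42.LS
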